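import Pool.Agent.REV.StmtsV3

set_option autoImplicit false

/-!
# Squad REV (MP_bbfd73_gt), row EQ3: the Abel form in dimension three
-/

namespace Pool.Agent.REV.H66

open Set MeasureTheory Filter
open scoped Topology

/-- the dominating function is integrable -/
theorem abel_bound_integrable :
    IntegrableOn (fun τ : ℝ => τ ^ (-(1 / 2) : ℝ) * min 1 τ⁻¹) (Ioi 0) := by
  have hmeas : Measurable fun τ : ℝ => τ ^ (-(1 / 2) : ℝ) * min 1 τ⁻¹ :=
    (measurable_id.pow_const _).mul (measurable_const.min measurable_inv)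
  rw [← Ioc_union_Ioi_eq_Ioi (zero_le_one (α := ℝ))]
  refine IntegrableOn.union ?_ ?_
  · have h1 : IntegrableOn (fun τ : ℝ => τ ^ (-(1 / 2) : ℝ)) (Ioc 0 1) :=
      (intervalIntegrable_iff_integrableOn_Ioc_of_le zero_le_one).1
        (intervalIntegral.intervalIntegrable_rpow' (by norm_num))
    refine Integrable.mono' h1 hmeas.aestronglyMeasurable ?_
    filter_upwards [ae_restrict_mem measurableSet_Ioc] with τ hτ
    have hp : 0 ≤ τ ^ (-(1 / 2) : ℝ) := Real.rpow_nonneg hτ.1.le _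
    rw [Real.norm_eq_abs, abs_of_nonneg (mul_nonneg hp
      (le_min zero_le_one (inv_nonneg.2 hτ.1.le)))]
    calc τ ^ (-(1 / 2) : ℝ) * min 1 τ⁻¹ ≤ τ ^ (-(1 / 2) : ℝ) * 1 :=
          mul_le_mul_of_nonneg_left (min_le_left _ _) hp
      _ = _ := mul_one _
  · have h1 : IntegrableOn (fun τ : ℝ => τ ^ (-(3 / 2) : ℝ)) (Ioi 1) :=
      integrableOn_Ioi_rpow_of_lt (by norm_num) one_pos
    refine Integrable.mono' h1 hmeas.aestronglyMeasurable ?_
    filter_upwards [ae_restrict_mem measurableSet_Ioi] with τ hτ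
    have hτ0 : 0 < τ := lt_trans one_pos hτ
    have hp : 0 ≤ τ ^ (-(1 / 2) : ℝ) := Real.rpow_nonneg hτ0.le _
    rw [Real.norm_eq_abs, abs_of_nonneg (mul_nonneg hp
      (le_min zero_le_one (inv_nonneg.2 hτ0.le)))]
    have h2 : τ ^ (-(3 / 2) : ℝ) = τ ^ (-(1 / 2) : ℝ) * τ⁻¹ := by
      rw [← Real.rpow_neg_one τ, ← Real.rpow_add hτ0]
      norm_num
    rw [h2]
    exact mul_le_mul_of_nonneg_left (min_le_right _ _) hp

theorem image_sqrt_add (Q : ℝ) (hQ : 0 < Q) :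
    (fun τ : ℝ => Real.sqrt (Q + τ)) '' Ioi 0 = Ioi (Real.sqrt Q) := by
  ext s
  constructor
  · rintro ⟨τ, hτ, rfl⟩
    have hτ' : 0 < τ := hτ
    exact Real.sqrt_lt_sqrt hQ.le (by linarith)
  · intro hs
    have hs' : Real.sqrt Q < s := hs
    have h0 : 0 ≤ Real.sqrt Q := Real.sqrt_nonneg Q
    refine ⟨s ^ 2 - Q, ?_, ?_⟩
    · show 0 < s ^ 2 - Q
      have h1 := Real.sq_sqrt hQ.le
      nlinarith
    · show Real.sqrt (Q + (s ^ 2 - Q)) = s
      rw [add_sub_cancel, Real.sqrt_sq (by linarith)]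

theorem eq3 (vp3 : Vp3Stmt) : Eq3Stmt := by
  intro κ R K1 y D hκ hD hmono hy hK1 hdec heq
  set h : ℝ → ℝ := fun S => y (Real.sqrt S) with hh
  have hhm : MonotoneOn h (Ioi 0) := fun a ha b hb hab =>
    hmono (Real.sqrt_pos.2 ha) (Real.sqrt_pos.2 hb) (Real.sqrt_le_sqrt hab)
  have hΨ0 : ∀ S, 0 < S → 0 ≤ R ^ 2 - h S ^ 2 := fun S hS => by
    have h1 := hy (Real.sqrt S) (Real.sqrt_pos.2 hS)
    have h2 : h S ^ 2 ≤ R ^ 2 := pow_le_pow_left₀ h1.1 h1.2 2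
    linarith
  have hΨ1 : ∀ S, 0 < S → R ^ 2 - h S ^ 2 ≤ K1 * min 1 S⁻¹ := fun S hS => by
    have h1 := hdec (Real.sqrt S) (Real.sqrt_pos.2 hS)
    rwa [Real.sq_sqrt hS.le] at h1
  set F : ℝ → ℝ → ℝ := fun Q τ => τ ^ (-(1 / 2) : ℝ) * (R ^ 2 - h (Q + τ) ^ 2) with hF
  have hB : IntegrableOn (fun τ : ℝ => K1 * (τ ^ (-(1 / 2) : ℝ) * min 1 τ⁻¹)) (Ioi 0) :=
    abel_bound_integrable.const_mul K1
  have hFb : ∀ Q : ℝ, 0 < Q → ∀ τ ∈ Ioi (0 : ℝ),
      ‖F Q τ‖ ≤ K1 * (τ ^ (-(1 / 2) : ℝ) * min 1 τ⁻¹) := by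
    intro Q hQ τ hτ
    have hτ0 : 0 < τ := hτ
    have hp : 0 ≤ τ ^ (-(1 / 2) : ℝ) := Real.rpow_nonneg hτ0.le _
    have hS : 0 < Q + τ := by linarith
    rw [Real.norm_eq_abs, abs_of_nonneg (mul_nonneg hp (hΨ0 _ hS))]
    have h1 : min 1 (Q + τ)⁻¹ ≤ min 1 τ⁻¹ :=
      min_le_min le_rfl (inv_anti₀ hτ0 (by linarith))
    have h2 : R ^ 2 - h (Q + τ) ^ 2 ≤ K1 * min 1 τ⁻¹ :=
      (hΨ1 _ hS).trans (mul_le_mul_of_nonneg_left h1 hK1)
    calc τ ^ (-(1 / 2) : ℝ) * (R ^ 2 - h (Q + τ) ^ 2) ≤ τ ^ (-(1 / 2) : ℝ) * (K1 * min 1 τ⁻¹) :=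
          mul_le_mul_of_nonneg_left h2 hp
      _ = _ := by ring
  have hFm : ∀ Q : ℝ, 0 < Q → AEStronglyMeasurable (F Q) (volume.restrict (Ioi 0)) := by
    intro Q hQ
    have h1 : MonotoneOn (fun τ => h (Q + τ)) (Ioi 0) := fun a ha b hb hab => by
      have ha' : 0 < a := ha
      have hb' : 0 < b := hb
      exact hhm (show (0 : ℝ) < Q + a by linarith) (show (0 : ℝ) < Q + b by linarith)
        (by linarith)
    have h2 : AEMeasurable (fun τ => h (Q + τ)) (volume.restrict (Ioi 0)) :=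
      aemeasurable_restrict_of_monotoneOn measurableSet_Ioi h1
    have h3 : AEMeasurable (F Q) (volume.restrict (Ioi 0)) :=
      ((measurable_id.pow_const _).aemeasurable).mul
        (aemeasurable_const.sub (h2.pow_const 2))
    exact h3.aestronglyMeasurable
  have hFi : ∀ Q : ℝ, 0 < Q → IntegrableOn (F Q) (Ioi 0) := fun Q hQ =>
    Integrable.mono' hB (hFm Q hQ) ((ae_restrict_mem measurableSet_Ioi).mono (hFb Q hQ))
  -- continuity of the right side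
  have hE : {x ∈ Ioi (0 : ℝ) | ¬ ContinuousWithinAt h (Ioi 0) x}.Countable :=
    hhm.countable_not_continuousWithinAt
  have hcont : ∀ Q0 : ℝ, 0 < Q0 → ContinuousAt (fun Q => ∫ τ in Ioi (0 : ℝ), F Q τ) Q0 := by
    intro Q0 hQ0
    refine continuousAt_of_dominated (bound := fun τ => K1 * (τ ^ (-(1 / 2) : ℝ) * min 1 τ⁻¹))
      ?_ ?_ hB ?_
    · filter_upwards [Ioi_mem_nhds hQ0] with Q hQ using hFm Q hQ
    · filter_upwards [Ioi_mem_nhds hQ0] with Q hQ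
      exact (ae_restrict_mem measurableSet_Ioi).mono (hFb Q hQ)
    · have h1 : {τ : ℝ | Q0 + τ ∈ {x ∈ Ioi (0 : ℝ) | ¬ ContinuousWithinAt h (Ioi 0) x}}.Countable :=
        hE.preimage (add_right_injective Q0)
      filter_upwards [ae_restrict_mem measurableSet_Ioi,
        ae_restrict_of_ae (h1.ae_notMem volume)] with τ hτ hτ2
      have hτ0 : 0 < τ := hτ
      have h2 : ContinuousAt h (Q0 + τ) := by
        by_contra hc
        apply hτ2
        refine ⟨show (0 : ℝ) < Q0 + τ by linarith, fun h3 => hc ?_⟩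
        exact h3.continuousAt (Ioi_mem_nhds (by linarith))
      have h3 : ContinuousAt (fun Q : ℝ => h (Q + τ)) Q0 :=
        ContinuousAt.comp (f := fun Q : ℝ => Q + τ) (g := h) h2
          (continuousAt_id.add continuousAt_const)
      exact continuousAt_const.mul (continuousAt_const.sub (h3.pow 2))
  -- the substitution
  have hsub : ∀ b : ℝ, 0 < b → ∀ Q : ℝ, 0 < Q → Real.sqrt Q = 1 / b →
      (∫ s in Ioi (1 / b), psd 3 b s * (R ^ 2 - y s ^ 2)) =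
        1 / 2 * ∫ τ in Ioi (0 : ℝ), F Q τ := by
    intro b hb Q hQ hQb
    rw [← hQb, ← image_sqrt_add Q hQ]
    have hder : ∀ τ ∈ Ioi (0 : ℝ), HasDerivWithinAt (fun τ : ℝ => Real.sqrt (Q + τ))
        (1 / (2 * Real.sqrt (Q + τ))) (Ioi 0) τ := by
      intro τ hτ
      have hτ0 : 0 < τ := hτ
      have h1 : HasDerivAt (fun τ : ℝ => Q + τ) 1 τ := by
        simpa using (hasDerivAt_id τ).const_add Q
      exact (h1.sqrt (ne_of_gt (by linarith))).hasDerivWithinAt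
    have hinj : InjOn (fun τ : ℝ => Real.sqrt (Q + τ)) (Ioi 0) := by
      intro a ha b hb hab
      have ha' : 0 < a := ha
      have hb' : 0 < b := hb
      have h1 : Q + a = Q + b :=
        (Real.sqrt_inj (by linarith) (by linarith)).1 hab
      linarith
    rw [integral_image_eq_integral_abs_deriv_smul measurableSet_Ioi hder hinj,
      ← integral_const_mul]
    refine setIntegral_congr_fun measurableSet_Ioi fun τ hτ => ?_
    have hτ0 : 0 < τ := hτ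
    have hs0 : 0 < Real.sqrt (Q + τ) := Real.sqrt_pos.2 (by linarith)
    have hst : 0 < Real.sqrt τ := Real.sqrt_pos.2 hτ0
    have h1 : 1 / b < Real.sqrt (Q + τ) := by
      rw [← hQb]
      exact Real.sqrt_lt_sqrt hQ.le (by linarith)
    have h2 := ((vp3 b hb).1 _ h1).1
    have h3 : Real.sqrt (Q + τ) ^ 2 - (1 / b) ^ 2 = τ := by
      rw [← hQb, Real.sq_sqrt (by linarith), Real.sq_sqrt hQ.le]
      ring
    rw [h3] at h2
    show |1 / (2 * Real.sqrt (Q + τ))| • (psd 3 b (Real.sqrt (Q + τ)) *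
      (R ^ 2 - y (Real.sqrt (Q + τ)) ^ 2)) =
      1 / 2 * (τ ^ (-(1 / 2) : ℝ) * (R ^ 2 - y (Real.sqrt (Q + τ)) ^ 2))
    rw [h2, abs_of_pos (by positivity), smul_eq_mul, Real.rpow_neg hτ0.le,
      ← Real.sqrt_eq_rpow]
    field_simp
  -- the identity outside of a countable set
  set D' : Set ℝ := {Q : ℝ | 0 < Q ∧ (Real.sqrt Q)⁻¹ ∈ D} with hD'
  have hD'c : D'.Countable := by
    have h1 : D' ⊆ (fun b : ℝ => (b⁻¹) ^ 2) '' D := by
      rintro Q ⟨hQ, hQD⟩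
      refine ⟨_, hQD, ?_⟩
      show ((Real.sqrt Q)⁻¹⁻¹) ^ 2 = Q
      rw [inv_inv, Real.sq_sqrt hQ.le]
    exact (hD.image _).mono h1
  have hid : ∀ Q : ℝ, 0 < Q → Q ∉ D' →
      y (Real.sqrt Q)⁻¹ = κ / 2 * ∫ τ in Ioi (0 : ℝ), F Q τ := by
    intro Q hQ hQD
    have hs : 0 < Real.sqrt Q := Real.sqrt_pos.2 hQ
    have h1 : (Real.sqrt Q)⁻¹ ∉ D := fun h2 => hQD ⟨hQ, h2⟩
    have h2 := heq (Real.sqrt Q)⁻¹ (inv_pos.2 hs) h1
    rw [hsub (Real.sqrt Q)⁻¹ (inv_pos.2 hs) Q hQ (by rw [one_div, inv_inv])] at h2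
    rw [h2]
    ring
  intro Q hQ
  refine ⟨hFi Q hQ, ?_⟩
  show y (Real.sqrt Q)⁻¹ = κ / 2 * ∫ τ in Ioi (0 : ℝ), F Q τ
  have hdense : Dense D'ᶜ := hD'c.dense_compl ℝ
  have hc : ContinuousAt (fun Q => κ / 2 * ∫ τ in Ioi (0 : ℝ), F Q τ) Q :=
    continuousAt_const.mul (hcont Q hQ)
  have hanti : ∀ a b : ℝ, 0 < a → a ≤ b → y (Real.sqrt b)⁻¹ ≤ y (Real.sqrt a)⁻¹ := by
    intro a b ha hab
    have hsa : 0 < Real.sqrt a := Real.sqrt_pos.2 ha
    have hsb : 0 < Real.sqrt b := Real.sqrt_pos.2 (lt_of_lt_of_le ha hab)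
    exact hmono (inv_pos.2 hsb) (inv_pos.2 hsa) (inv_anti₀ hsa (Real.sqrt_le_sqrt hab))
  rw [Metric.continuousAt_iff] at hc
  refine le_antisymm (le_of_forall_pos_le_add fun ε hε => ?_)
    (le_of_forall_pos_le_add fun ε hε => ?_)
  · obtain ⟨δ, hδ, h1⟩ := hc ε hε
    have h2 : max (Q - δ) (Q / 2) < Q := max_lt (by linarith) (by linarith)
    obtain ⟨q, hq1, hq2⟩ := hdense.exists_between h2
    have hq3 : Q - δ < q := lt_of_le_of_lt (le_max_left _ _) hq2.1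
    have hq4 : Q / 2 < q := lt_of_le_of_lt (le_max_right _ _) hq2.1
    have hq0 : 0 < q := by linarith
    have h3 := h1 (show dist q Q < δ by
      rw [Real.dist_eq, abs_lt]
      constructor <;> linarith [hq2.2])
    rw [Real.dist_eq, abs_lt] at h3
    have h4 := hid q hq0 hq1
    have h5 := hanti q Q hq0 hq2.2.le
    rw [h4] at h5
    linarith [h3.2]
  · obtain ⟨δ, hδ, h1⟩ := hc ε hε
    have h2 : Q < Q + δ := by linarith
    obtain ⟨q, hq1, hq2⟩ := hdense.exists_between h2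
    have hq0 : 0 < q := hQ.trans hq2.1
    have h3 := h1 (show dist q Q < δ by
      rw [Real.dist_eq, abs_lt]
      constructor <;> linarith [hq2.1, hq2.2])
    rw [Real.dist_eq, abs_lt] at h3
    have h4 := hid q hq0 hq1
    have h5 := hanti Q q hQ hq2.1.le
    rw [h4] at h5
    linarith [h3.1]

end Pool.Agent.REV.H66
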