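import Pool.Agent.REV.StmtsV

set_option autoImplicit false

/-!
# Squad REV (MP_bbfd73_gt), row VLI: the Lipschitz type estimate
-/

namespace Pool.Agent.REV.H66

open Set MeasureTheory Filter
open scoped Topology

theorem rpow_sub_rpow_le {m x y : ℝ} (hm : 1 ≤ m) (hy : 0 ≤ y) (hyx : y ≤ x) (hx : x ≤ 1) :
    x ^ m - y ^ m ≤ m * (x - y) := by
  rcases (hy.trans hyx).eq_or_lt with h0 | h0
  · have h1 : y = 0 := le_antisymm (by linarith) hy
    rw [h1, ← h0, sub_self, sub_self, mul_zero]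
  · have hs : -1 ≤ (y - x) / x := by
      rw [le_div_iff₀ h0]
      linarith
    have h1 := one_add_mul_self_le_rpow_one_add hs hm
    have h2 : 1 + (y - x) / x = y / x := by
      field_simp
      ring
    rw [h2, Real.div_rpow hy h0.le] at h1
    have hxm : 0 < x ^ m := Real.rpow_pos_of_pos h0 m
    rw [le_div_iff₀ hxm] at h1
    have h3 : x ^ m / x = x ^ (m - 1) := (Real.rpow_sub_one h0.ne' m).symm
    have h4 : x ^ (m - 1) ≤ 1 := Real.rpow_le_one h0.le hx (by linarith)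
    have h5 : (1 + m * ((y - x) / x)) * x ^ m = x ^ m - m * (x - y) * (x ^ m / x) := by
      field_simp
      ring
    rw [h5, h3] at h1
    have h6 : m * (x - y) * x ^ (m - 1) ≤ m * (x - y) * 1 :=
      mul_le_mul_of_nonneg_left h4 (mul_nonneg (by linarith) (by linarith))
    linarith

theorem wb_mem {b β : ℝ} (hb : 0 < b) (hβ : 1 / b < β) : 0 ≤ wb b β ∧ wb b β ≤ 1 := by
  have h1 : 1 < b * β := by
    rwa [div_lt_iff₀ hb, mul_comm] at hβ
  have h2 : (1 : ℝ) ≤ (b * β) ^ 2 := one_le_pow₀ h1.le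
  have h3 : ((b * β) ^ 2)⁻¹ ≤ 1 := inv_le_one_of_one_le₀ h2
  have h4 : 0 ≤ ((b * β) ^ 2)⁻¹ := by positivity
  unfold wb
  constructor <;> linarith

theorem wb_diff {b b' β : ℝ} : wb b' β - wb b β = (β ^ 2)⁻¹ * ((b ^ 2)⁻¹ - (b' ^ 2)⁻¹) := by
  unfold wb
  rw [mul_pow, mul_pow, mul_inv, mul_inv]
  ring

theorem wb_est {m b b' β : ℝ} (hm : 1 ≤ m) (hb : 0 < b) (hbb : b ≤ b') (hβ : 1 / b' < β) :
    wb b' β ^ m ≤ (if 1 / b < β then wb b β ^ m else 0) +
      m * ((β ^ 2)⁻¹ * ((b ^ 2)⁻¹ - (b' ^ 2)⁻¹)) := by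
  have hb' : 0 < b' := hb.trans_le hbb
  obtain ⟨h1, h2⟩ := wb_mem hb' hβ
  have hinv : (b' ^ 2)⁻¹ ≤ (b ^ 2)⁻¹ :=
    inv_anti₀ (by positivity) (pow_le_pow_left₀ hb.le hbb 2)
  have hnn : 0 ≤ (β ^ 2)⁻¹ * ((b ^ 2)⁻¹ - (b' ^ 2)⁻¹) :=
    mul_nonneg (by positivity) (by linarith)
  rw [← wb_diff (b := b) (b' := b') (β := β)] at hnn ⊢
  split_ifs with h
  · obtain ⟨h3, h4⟩ := wb_mem hb h
    have h5 := rpow_sub_rpow_le hm h3 (by linarith : wb b β ≤ wb b' β) h2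
    linarith
  · rw [zero_add]
    have hβ0 : 0 < β := lt_trans (by positivity) hβ
    have h6 : wb b β ≤ 0 := by
      have h7 : b * β ≤ 1 := by
        rw [not_lt, le_div_iff₀ hb] at h
        linarith
      have h8 : (b * β) ^ 2 ≤ 1 := pow_le_one₀ (by positivity) h7
      have h9 : 1 ≤ ((b * β) ^ 2)⁻¹ := (one_le_inv₀ (by positivity)).2 h8
      unfold wb
      linarith
    have h7 : wb b' β ^ m ≤ wb b' β := by
      have := Real.rpow_le_rpow_of_exponent_ge' h1 h2 zero_le_one hm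
      rwa [Real.rpow_one] at this
    have h8 : wb b' β ≤ wb b' β - wb b β := by linarith
    calc wb b' β ^ m ≤ 1 * (wb b' β - wb b β) := by linarith
      _ ≤ m * (wb b' β - wb b β) := mul_le_mul_of_nonneg_right hm (by linarith)

theorem vli (vdr : VdrStmt) (vlm : VlmStmt) (vne : VneStmt) (vta : VtaStmt) : VliStmt := by
  intro n C σ f f' hn hC hσ hf hf' hst b b' hb hbb
  have hb' : 0 < b' := hb.trans_le hbb
  obtain ⟨hd, -, hdc⟩ := vdr n f hn hf
  obtain ⟨-, hcont, hR0, hyb, -, -, hDint, -, -⟩ := vlm n f hn hf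
  have hvne := (vne n C σ f f' hn hC.le hσ.le hf hf' hst).1
  obtain ⟨htI, htB, -, -⟩ := vta n C σ f f' hn hC hσ hf hf' hst (1 / b') (by positivity)
  obtain ⟨hi1, he1, -, -⟩ := hvne b' hb'
  obtain ⟨hi2, he2, -, -⟩ := hvne b hb
  have hn4 : (4 : ℝ) ≤ n := by exact_mod_cast hn
  have hm1 : 1 ≤ ((n : ℝ) - 2) / 2 := by linarith
  have hc3 : 0 < c3 n C := by
    unfold c3
    exact div_pos hC (mul_pos (by linarith) (by linarith))
  have hc : 0 < σ * c3 n C := mul_pos hσ hc3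
  have ha0 : 0 < 1 / b' := by positivity
  have hsub : Ioi (1 / b') ⊆ Ioi (0 : ℝ) := Ioi_subset_Ioi ha0.le
  have hab : 1 / b' ≤ 1 / b := one_div_le_one_div_of_le hb hbb
  have hinv : (b' ^ 2)⁻¹ ≤ (b ^ 2)⁻¹ :=
    inv_anti₀ (by positivity) (pow_le_pow_left₀ hb.le hbb 2)
  have hK : 0 ≤ (b ^ 2)⁻¹ - (b' ^ 2)⁻¹ := by linarith
  have hDc : ContinuousOn (dph n f) (Ioi (1 / b')) := hdc.mono hsub
  have hD0 : ∀ β ∈ Ioi (1 / b'), 0 ≤ dph n f β := fun β hβ => (hd β (hsub hβ)).2.2.2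
  -- the integral `J`
  have hJc : ContinuousOn (fun β : ℝ => β⁻¹ * dph n f β) (Ioi (1 / b')) :=
    ContinuousOn.mul (ContinuousOn.inv₀ continuousOn_id fun β hβ => (ne_of_gt (hsub hβ) : β ≠ 0))
      hDc
  have hJ : IntegrableOn (fun β : ℝ => β⁻¹ * dph n f β) (Ioi (1 / b')) := by
    have h1 : IntegrableOn (fun β : ℝ => b' * dph n f β) (Ioi (1 / b')) :=
      (hDint.mono_set hsub).const_mul b'
    refine Integrable.mono' h1 (hJc.aestronglyMeasurable measurableSet_Ioi) ?_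
    filter_upwards [ae_restrict_mem measurableSet_Ioi] with β hβ
    have hβ0 : 0 < β := hsub hβ
    rw [Real.norm_eq_abs, abs_of_nonneg (mul_nonneg (inv_nonneg.2 hβ0.le) (hD0 β hβ))]
    refine mul_le_mul_of_nonneg_right ?_ (hD0 β hβ)
    have h2 : 1 / b' < β := hβ
    rw [inv_le_comm₀ hβ0 hb']
    rw [one_div] at h2
    exact h2.le
  -- the main estimate
  have hmain : (∫ β in Ioi (1 / b'), wb b' β ^ (((n : ℝ) - 2) / 2) * (β * dph n f β)) ≤
      (∫ β in Ioi (1 / b), wb b β ^ (((n : ℝ) - 2) / 2) * (β * dph n f β)) +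
      ((n : ℝ) - 2) / 2 * ((b ^ 2)⁻¹ - (b' ^ 2)⁻¹) *
        ∫ β in Ioi (1 / b'), β⁻¹ * dph n f β := by
    have h1 : (∫ β in Ioi (1 / b), wb b β ^ (((n : ℝ) - 2) / 2) * (β * dph n f β)) =
        ∫ β in Ioi (1 / b'), (Ioi (1 / b)).indicator
          (fun β => wb b β ^ (((n : ℝ) - 2) / 2) * (β * dph n f β)) β := by
      rw [setIntegral_indicator measurableSet_Ioi, Ioi_inter_Ioi, max_eq_right hab]
    have h2 : IntegrableOn ((Ioi (1 / b)).indicator
          (fun β => wb b β ^ (((n : ℝ) - 2) / 2) * (β * dph n f β))) (Ioi (1 / b')) :=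
      ((integrable_indicator_iff measurableSet_Ioi).2 hi2).integrableOn
    have h3 : IntegrableOn (fun β : ℝ => ((n : ℝ) - 2) / 2 * ((b ^ 2)⁻¹ - (b' ^ 2)⁻¹) *
        (β⁻¹ * dph n f β)) (Ioi (1 / b')) := hJ.const_mul _
    rw [h1, ← integral_const_mul, ← integral_add h2 h3]
    refine setIntegral_mono_on hi1 (h2.add h3) measurableSet_Ioi fun β hβ => ?_
    have hβ0 : 0 < β := hsub hβ
    have h4 := wb_est hm1 hb hbb (show 1 / b' < β from hβ)
    have h5 : 0 ≤ β * dph n f β := mul_nonneg hβ0.le (hD0 β hβ)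
    have h6 := mul_le_mul_of_nonneg_right h4 h5
    refine h6.trans (le_of_eq ?_)
    rw [add_mul]
    have h7 : ((n : ℝ) - 2) / 2 * ((β ^ 2)⁻¹ * ((b ^ 2)⁻¹ - (b' ^ 2)⁻¹)) * (β * dph n f β) =
        ((n : ℝ) - 2) / 2 * ((b ^ 2)⁻¹ - (b' ^ 2)⁻¹) * (β⁻¹ * dph n f β) := by
      have h8 : (β ^ 2)⁻¹ * β = β⁻¹ := by
        field_simp
      calc ((n : ℝ) - 2) / 2 * ((β ^ 2)⁻¹ * ((b ^ 2)⁻¹ - (b' ^ 2)⁻¹)) * (β * dph n f β) =
          ((n : ℝ) - 2) / 2 * ((b ^ 2)⁻¹ - (b' ^ 2)⁻¹) * (((β ^ 2)⁻¹ * β) * dph n f β) := by ring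
        _ = _ := by rw [h8]
    rw [h7]
    refine congrArg (· + _) ?_
    rw [ite_mul, zero_mul]
    rfl
  have hJ0 : 0 ≤ ∫ β in Ioi (1 / b'), β⁻¹ * dph n f β :=
    setIntegral_nonneg measurableSet_Ioi fun β hβ =>
      mul_nonneg (inv_nonneg.2 (le_of_lt (hsub hβ))) (hD0 β hβ)
  have hdiff : yb n f' b' - yb n f' b ≤ σ * c3 n C * (((n : ℝ) - 2) / 2) *
      ((b ^ 2)⁻¹ - (b' ^ 2)⁻¹) * ∫ β in Ioi (1 / b'), β⁻¹ * dph n f β := by
    rw [he1, he2]
    have h1 := mul_le_mul_of_nonneg_left hmain hc.le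
    rw [mul_add] at h1
    have h2 : σ * c3 n C * (((n : ℝ) - 2) / 2) *
      ((b ^ 2)⁻¹ - (b' ^ 2)⁻¹) * (∫ β in Ioi (1 / b'), β⁻¹ * dph n f β) =
      σ * c3 n C * (((n : ℝ) - 2) / 2 * ((b ^ 2)⁻¹ - (b' ^ 2)⁻¹) *
        ∫ β in Ioi (1 / b'), β⁻¹ * dph n f β) := by ring
    rw [h2]
    linarith
  have hm0 : 0 ≤ ((n : ℝ) - 2) / 2 := by linarith
  refine ⟨?_, ?_⟩
  · -- first estimate
    have h1 : (∫ β in Ioi (1 / b'), β⁻¹ * dph n f β) ≤
        b' ^ 2 * ∫ β in Ioi (1 / b'), β * dph n f β := by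
      rw [← integral_const_mul]
      refine setIntegral_mono_on hJ (htI.const_mul _) measurableSet_Ioi fun β hβ => ?_
      have hβ0 : 0 < β := hsub hβ
      have h2 : 1 / b' < β := hβ
      rw [← mul_assoc]
      refine mul_le_mul_of_nonneg_right ?_ (hD0 β hβ)
      rw [div_lt_iff₀ hb'] at h2
      rw [inv_le_iff_one_le_mul₀ hβ0]
      have h3 : 1 ≤ (β * b') ^ 2 := one_le_pow₀ h2.le
      calc (1 : ℝ) ≤ (β * b') ^ 2 := h3
        _ = b' ^ 2 * β * β := by ring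
    have h2 : (2 : ℝ) / (1 / b') = 2 * b' := by
      field_simp
    rw [h2] at htB
    have h3 : σ * c3 n C * (∫ β in Ioi (1 / b'), β⁻¹ * dph n f β) ≤
        b' ^ 2 * ((4 / 3) ^ (((n : ℝ) - 2) / 2) * yb n f' (2 * b')) := by
      have h4 := mul_le_mul_of_nonneg_left h1 hc.le
      have h5 := mul_le_mul_of_nonneg_left htB (sq_nonneg b')
      calc σ * c3 n C * (∫ β in Ioi (1 / b'), β⁻¹ * dph n f β) ≤
          σ * c3 n C * (b' ^ 2 * ∫ β in Ioi (1 / b'), β * dph n f β) := h4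
        _ = b' ^ 2 * (σ * c3 n C * ∫ β in Ioi (1 / b'), β * dph n f β) := by ring
        _ ≤ _ := h5
    refine hdiff.trans ?_
    have h4 := mul_le_mul_of_nonneg_left h3 (mul_nonneg hm0 hK)
    refine le_trans (le_of_eq ?_) h4
    ring
  · -- second estimate
    have hphc : ContinuousOn (fun β : ℝ => (β ^ 2)⁻¹ * ph n f β) (Ioi (1 / b')) := by
      refine ContinuousOn.mul ?_ ?_
      · exact ContinuousOn.inv₀ (continuousOn_pow 2) fun β hβ =>
          pow_ne_zero 2 (ne_of_gt (hsub hβ) : β ≠ 0)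
      · unfold ph
        exact (hcont.mono (hsub.trans Ioi_subset_Ici_self)).pow (n - 1)
    have hph0 : ∀ β : ℝ, 0 ≤ β → 0 ≤ ph n f β := fun β hβ => pow_nonneg (hyb β hβ).1 _
    have hphle : ∀ β : ℝ, 0 ≤ β → ph n f β ≤ RA n f 1 ^ (n - 1) := fun β hβ =>
      pow_le_pow_left₀ (hyb β hβ).1 (hyb β hβ).2 _
    have hphI : IntegrableOn (fun β : ℝ => (β ^ 2)⁻¹ * ph n f β) (Ioi (1 / b')) := by
      have h1 : IntegrableOn (fun β : ℝ => RA n f 1 ^ (n - 1) * β ^ (-2 : ℝ)) (Ioi (1 / b')) :=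
        (integrableOn_Ioi_rpow_of_lt (by norm_num) ha0).const_mul _
      refine Integrable.mono' h1 (hphc.aestronglyMeasurable measurableSet_Ioi) ?_
      filter_upwards [ae_restrict_mem measurableSet_Ioi] with β hβ
      have hβ0 : 0 < β := hsub hβ
      rw [Real.norm_eq_abs, abs_of_nonneg (mul_nonneg (by positivity) (hph0 β hβ0.le)),
        Real.rpow_neg hβ0.le, Real.rpow_two, mul_comm]
      exact mul_le_mul_of_nonneg_right (hphle β hβ0.le) (by positivity)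
    refine ⟨hphI, hdiff.trans ?_⟩
    have hparts : (∫ β in Ioi (1 / b'), (β⁻¹ * dph n f β - (β ^ 2)⁻¹ * ph n f β)) =
        0 - (1 / b')⁻¹ * ph n f (1 / b') := by
      refine integral_Ioi_of_hasDerivAt_of_tendsto (f := fun β : ℝ => β⁻¹ * ph n f β)
        ?_ ?_ (hJ.sub hphI) ?_
      · refine ContinuousWithinAt.mul ?_ ?_
        · exact (continuousAt_inv₀ ha0.ne').continuousWithinAt
        · exact (hd (1 / b') ha0).2.1.continuousAt.continuousWithinAt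
      · intro β hβ
        have hβ0 : 0 < β := hsub hβ
        have h1 := (hasDerivAt_inv hβ0.ne').mul (hd β hβ0).2.1
        refine h1.congr_deriv ?_
        ring
      · have h1 : Tendsto (fun β : ℝ => β⁻¹ * RA n f 1 ^ (n - 1)) atTop (𝓝 0) := by
          have := (tendsto_inv_atTop_zero (𝕜 := ℝ)).mul_const (RA n f 1 ^ (n - 1))
          rwa [zero_mul] at this
        refine squeeze_zero' ?_ ?_ h1
        · filter_upwards [eventually_gt_atTop (0 : ℝ)] with β hβ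
          exact mul_nonneg (inv_nonneg.2 hβ.le) (hph0 β hβ.le)
        · filter_upwards [eventually_gt_atTop (0 : ℝ)] with β hβ
          exact mul_le_mul_of_nonneg_left (hphle β hβ.le) (inv_nonneg.2 hβ.le)
    rw [integral_sub hJ hphI] at hparts
    have h1 : 0 ≤ (1 / b')⁻¹ * ph n f (1 / b') :=
      mul_nonneg (inv_nonneg.2 ha0.le) (hph0 _ ha0.le)
    refine mul_le_mul_of_nonneg_left (by linarith) ?_
    exact mul_nonneg (mul_nonneg hc.le hm0) hK

end Pool.Agent.REV.H66
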