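import Pool.Agent.REV.StmtsA1

/-!
# Squad REV (MP_bbfd73_gt), row SCA: scaling and weakening of `Pinch`
-/

set_option autoImplicit false

namespace Pool.Agent.REV.H66

open Set

theorem el_quot (n : ℕ) (a b t : ℝ) (f : ℝ → ℝ) (ha : 0 < 1 + (a - 1) * t ^ 2)
    (hb : 0 < 1 + (b - 1) * t ^ 2) :
    El n b f t = ((1 + (b - 1) * t ^ 2) / (1 + (a - 1) * t ^ 2)) ^ (((n : ℝ) + 1) / 2) *
      El n a f t := by
  unfold El
  rw [Real.div_rpow hb.le ha.le, ← mul_assoc,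
    div_mul_cancel₀ _ (Real.rpow_pos_of_pos ha _).ne']

theorem el_scale (n : ℕ) (a s t : ℝ) (f : ℝ → ℝ) :
    El n a (fun t => s * f t) t = s * El n a f t := by
  unfold El
  ring

theorem el_nonneg (n : ℕ) (a t : ℝ) (f : ℝ → ℝ) (ha : 0 < 1 + (a - 1) * t ^ 2)
    (hf : 0 ≤ f t) : 0 ≤ El n a f t :=
  mul_nonneg (Real.rpow_pos_of_pos ha _).le hf

theorem pos_ge (a t : ℝ) (ha : 1 ≤ a) : 0 < 1 + (a - 1) * t ^ 2 := by
  have : 0 ≤ (a - 1) * t ^ 2 := mul_nonneg (by linarith) (sq_nonneg t)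
  linarith

theorem pos_le (b t : ℝ) (hb : 0 < b) (hb1 : b ≤ 1) (ht : t ∈ Icc (0 : ℝ) 1) :
    0 < 1 + (b - 1) * t ^ 2 := by
  have h1 : t ^ 2 ≤ 1 := by nlinarith [ht.1, ht.2]
  nlinarith

/-- **row SCA** -/
theorem sca : ScaStmt := by
  refine ⟨fun n A s f hs h => ⟨?_, ?_⟩, fun n A B f hA hAB hf h => ⟨?_, ?_⟩⟩
  · intro x hx y hy hxy
    rw [el_scale, el_scale]
    exact mul_le_mul_of_nonneg_left (h.1 hx hy hxy) hs
  · intro x hx y hy hxy
    rw [el_scale, el_scale]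
    exact mul_le_mul_of_nonneg_left (h.2 hx hy hxy) hs
  · intro x hx y hy hxy
    have hxa := pos_ge (1 + A) x (by linarith)
    have hya := pos_ge (1 + A) y (by linarith)
    have hxb := pos_ge (1 + B) x (by linarith)
    have hyb := pos_ge (1 + B) y (by linarith)
    rw [el_quot n (1 + A) (1 + B) x f hxa hxb, el_quot n (1 + A) (1 + B) y f hya hyb]
    refine mul_le_mul (Real.rpow_le_rpow (div_nonneg hxb.le hxa.le) ?_ (by positivity))
      (h.1 hx hy hxy) (el_nonneg n _ x f hxa (hf x hx))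
      (Real.rpow_nonneg (div_nonneg hyb.le hya.le) _)
    rw [div_le_div_iff₀ hxa hya]
    have h1 : x ^ 2 ≤ y ^ 2 := pow_le_pow_left₀ hx.1 hxy 2
    nlinarith [mul_nonneg (sub_nonneg.2 hAB) (sub_nonneg.2 h1)]
  · intro x hx y hy hxy
    have hA1 : 0 < 1 + A := by linarith
    have hB1 : 0 < 1 + B := by linarith
    have ha0 : 0 < 1 / (1 + A) := by positivity
    have hb0 : 0 < 1 / (1 + B) := by positivity
    have ha1 : 1 / (1 + A) ≤ 1 := by rw [div_le_one hA1]; linarith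
    have hb1 : 1 / (1 + B) ≤ 1 := by rw [div_le_one hB1]; linarith
    have hba : 1 / (1 + B) ≤ 1 / (1 + A) := one_div_le_one_div_of_le hA1 (by linarith)
    have hxa := pos_le _ x ha0 ha1 hx
    have hya := pos_le _ y ha0 ha1 hy
    have hxb := pos_le _ x hb0 hb1 hx
    have hyb := pos_le _ y hb0 hb1 hy
    rw [el_quot n _ (1 / (1 + B)) x f hxa hxb, el_quot n _ (1 / (1 + B)) y f hya hyb]
    refine mul_le_mul (Real.rpow_le_rpow (div_nonneg hyb.le hya.le) ?_ (by positivity))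
      (h.2 hx hy hxy) (el_nonneg n _ y f hya (hf y hy))
      (Real.rpow_nonneg (div_nonneg hxb.le hxa.le) _)
    rw [div_le_div_iff₀ hya hxa]
    have h1 : x ^ 2 ≤ y ^ 2 := pow_le_pow_left₀ hx.1 hxy 2
    nlinarith [mul_nonneg (sub_nonneg.2 hba) (sub_nonneg.2 h1)]

end Pool.Agent.REV.H66
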