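import Pool.Agent.REV.StmtsG2
import Pool.Agent.BPH.Sph
import Pool.Agent.BPH.Avg
import Pool.Agent.BPH.Bkk

/-!
# Squad REV (MP_bbfd73_gt), row ZSM: second moments of a zonal function
-/

set_option autoImplicit false

open MeasureTheory Module Set Filter
open scoped RealInnerProductSpace Pointwise Topology ENNReal

namespace Pool.Agent.REV.H66

open Pool.Agent.BPH Pool.Agent.BPH.AvgH

section
variable {E : Type} [NormedAddCommGroup E] [InnerProductSpace ℝ E]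

theorem norm_nrm_le (x : E) : ‖nrm x‖ ≤ 1 := by
  by_cases hx : x = 0
  · unfold nrm
    rw [hx, smul_zero, norm_zero]
    exact zero_le_one
  · exact (BPH.norm_nrm hx).le

/-- an orthonormal basis which begins with `u`, `e'` -/
theorem exists_onb [FiniteDimensional ℝ E] (m : ℕ) (hm : finrank ℝ E = m + 2) (u e' : E)
    (hu : ‖u‖ = 1) (he : ‖e'‖ = 1) (hue : ⟪u, e'⟫ = 0) :
    ∃ b : OrthonormalBasis (Fin (m + 2)) ℝ E, b 0 = u ∧ b 1 = e' := by
  classical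
  let v : Fin (m + 2) → E := fun i => if i = 0 then u else e'
  have v0 : v 0 = u := if_pos rfl
  have v1 : v 1 = e' := if_neg (by simp)
  have hv : Orthonormal ℝ (({0, 1} : Set (Fin (m + 2))).domRestrict v) := by
    constructor
    · rintro ⟨i, hi | hi⟩
      · show ‖v i‖ = 1
        rw [hi, v0, hu]
      · show ‖v i‖ = 1
        rw [hi, v1, he]
    · rintro ⟨i, hi | hi⟩ ⟨j, hj | hj⟩ hij
      · exact absurd (Subtype.ext (hi.trans hj.symm)) hij
      · show ⟪v i, v j⟫ = 0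
        rw [hi, hj, v0, v1, hue]
      · show ⟪v i, v j⟫ = 0
        rw [hi, hj, v0, v1, real_inner_comm, hue]
      · exact absurd (Subtype.ext (hi.trans hj.symm)) hij
  obtain ⟨b, hb⟩ := hv.exists_orthonormalBasis_extension_of_card_eq
    (by rw [hm, Fintype.card_fin])
  exact ⟨b, by rw [hb 0 (Or.inl rfl), v0], by rw [hb 1 (Or.inr rfl), v1]⟩

end

section
variable {E : Type} [NormedAddCommGroup E] [InnerProductSpace ℝ E] [FiniteDimensional ℝ E]
  [MeasurableSpace E] [BorelSpace E]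

/-- measurable functions which are bounded on the unit ball -/
def Gd (F : E → ℝ) : Prop := Measurable F ∧ ∃ C, ∀ x, ‖x‖ ≤ 1 → |F x| ≤ C

theorem Gd.int {F : E → ℝ} (hF : Gd F) (U : Submodule ℝ E) :
    Integrable (fun y => F (nrm (U.starProjection y))) (sph E) := by
  have := sph_facts.prob (E := E)
  obtain ⟨hm, C, hC⟩ := hF
  refine Integrable.of_bound (C := C) ?_ (Filter.Eventually.of_forall fun y => ?_)
  · exact (hm.comp (meas_nrm.comp U.starProjection.continuous.measurable)).aestronglyMeasurable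
  · rw [Real.norm_eq_abs]
    exact hC _ (norm_nrm_le _)

theorem mS_add (U : Submodule ℝ E) {F G : E → ℝ} (hF : Gd F) (hG : Gd G) :
    mS U (fun x => F x + G x) = mS U F + mS U G :=
  integral_add (hF.int U) (hG.int U)

theorem mS_mul (U : Submodule ℝ E) (c : ℝ) (F : E → ℝ) :
    mS U (fun x => c * F x) = c * mS U F :=
  integral_const_mul c _

theorem mS_sum (U : Submodule ℝ E) {ι : Type} (s : Finset ι) (F : ι → E → ℝ)
    (hF : ∀ i ∈ s, Gd (F i)) : mS U (fun x => ∑ i ∈ s, F i x) = ∑ i ∈ s, mS U (F i) :=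
  integral_finsetSum s fun i hi => (hF i hi).int U

theorem mS_congr {u e' : E} (he : ‖e'‖ = 1) (hue : ⟪u, e'⟫ = 0) {F G : E → ℝ}
    (h : ∀ x, ‖x‖ = 1 → ⟪u, x⟫ = 0 → F x = G x) : mS (ℝ ∙ u)ᗮ F = mS (ℝ ∙ u)ᗮ G := by
  have hU : (ℝ ∙ u)ᗮ ≠ ⊥ := by
    intro h0
    have h1 : e' ∈ (ℝ ∙ u)ᗮ := Submodule.mem_orthogonal_singleton_iff_inner_right.2 hue
    rw [h0, Submodule.mem_bot] at h1
    rw [h1, norm_zero] at he
    exact zero_ne_one he
  refine integral_congr_ae ?_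
  filter_upwards [bkk_ae sph_facts hU] with y hy
  refine h _ (BPH.norm_nrm hy) ?_
  unfold nrm
  rw [inner_smul_right, Submodule.mem_orthogonal_singleton_iff_inner_right.1
    (Submodule.starProjection_apply_mem _ y), mul_zero]

theorem mS_inv (u : E) (T : E ≃ₗᵢ[ℝ] E) (hT : T u = u) (F : E → ℝ) :
    mS (ℝ ∙ u)ᗮ (fun x => F (T x)) = mS (ℝ ∙ u)ᗮ F := by
  have h := mS_map sph_facts T (fun _ : Fin 1 => u) F
  have e : perp (fun _ : Fin 1 => u) = (ℝ ∙ u)ᗮ := by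
    unfold perp
    rw [Set.range_const]
  simp only [hT] at h
  rw [e] at h
  exact h.symm

/-- the bilinear form of the second moments -/
noncomputable def BB (u e' : E) (ψ : ℝ → ℝ) (p q : E) : ℝ :=
  mS (ℝ ∙ u)ᗮ (fun x => ⟪p, x⟫ * ⟪q, x⟫ * ψ ⟪e', x⟫)

omit [FiniteDimensional ℝ E] in
theorem gd2 (e' p q : E) {ψ : ℝ → ℝ} (hψ : BM ψ) :
    Gd (fun x => ⟪p, x⟫ * ⟪q, x⟫ * ψ ⟪e', x⟫) := by
  obtain ⟨hm, C, hC⟩ := hψ
  have hin : ∀ w : E, Measurable fun x : E => ⟪w, x⟫ := fun w =>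
    (continuous_const.inner continuous_id).measurable
  refine ⟨((hin p).mul (hin q)).mul (hm.comp (hin e')), ‖p‖ * ‖q‖ * C, fun x hx => ?_⟩
  have h1 : ∀ w : E, |⟪w, x⟫| ≤ ‖w‖ := fun w =>
    (abs_real_inner_le_norm w x).trans (by nlinarith [norm_nonneg w])
  rw [abs_mul, abs_mul]
  exact mul_le_mul (mul_le_mul (h1 p) (h1 q) (abs_nonneg _) (norm_nonneg _)) (hC _)
    (abs_nonneg _) (by positivity)

theorem BB_comm (u e' : E) (ψ : ℝ → ℝ) (p q : E) : BB u e' ψ p q = BB u e' ψ q p := by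
  unfold BB
  congr 1
  funext x
  ring

theorem BB_add (u e' : E) {ψ : ℝ → ℝ} (hψ : BM ψ) (p p' q : E) :
    BB u e' ψ (p + p') q = BB u e' ψ p q + BB u e' ψ p' q := by
  unfold BB
  rw [← mS_add _ (gd2 e' p q hψ) (gd2 e' p' q hψ)]
  congr 1
  funext x
  rw [inner_add_left]
  ring

theorem BB_smul (u e' : E) (ψ : ℝ → ℝ) (c : ℝ) (p q : E) :
    BB u e' ψ (c • p) q = c * BB u e' ψ p q := by
  unfold BB
  rw [← mS_mul]
  congr 1
  funext x
  rw [real_inner_smul_left]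
  ring

theorem BB_inv (u e' : E) (ψ : ℝ → ℝ) (T : E ≃ₗᵢ[ℝ] E) (hu : T u = u) (he : T e' = e')
    (hT : ∀ x, T (T x) = x) (p q : E) : BB u e' ψ (T p) (T q) = BB u e' ψ p q := by
  have h : ∀ w x : E, ⟪w, T x⟫ = ⟪T w, x⟫ := by
    intro w x
    have := T.inner_map_map w (T x)
    rw [hT] at this
    exact this.symm
  unfold BB
  rw [← mS_inv u T hu (fun x => ⟪p, x⟫ * ⟪q, x⟫ * ψ ⟪e', x⟫)]
  congr 1
  funext x
  show _ = ⟪p, T x⟫ * ⟪q, T x⟫ * ψ ⟪e', T x⟫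
  rw [h, h, h, he]

theorem BB_u {u e' : E} (he : ‖e'‖ = 1) (hue : ⟪u, e'⟫ = 0) (ψ : ℝ → ℝ) (q : E) :
    BB u e' ψ u q = 0 := by
  unfold BB
  rw [mS_congr he hue (G := fun _ => 0) (fun x _ h => by rw [h, zero_mul, zero_mul])]
  exact integral_zero _ _

/-- the mixed moment -/
theorem BB_mix (u e' : E) (ψ : ℝ → ℝ) (w : E) (h1 : ⟪w, u⟫ = 0) (h2 : ⟪w, e'⟫ = 0) :
    BB u e' ψ w e' = 0 := by
  have h := BB_inv u e' ψ ((ℝ ∙ w)ᗮ.reflection)
    (Submodule.reflection_mem_subspace_eq_self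
      (Submodule.mem_orthogonal_singleton_iff_inner_right.2 h1))
    (Submodule.reflection_mem_subspace_eq_self
      (Submodule.mem_orthogonal_singleton_iff_inner_right.2 h2))
    (fun x => Submodule.reflection_reflection _ x) w e'
  rw [Submodule.reflection_orthogonalComplement_singleton_eq_neg,
    Submodule.reflection_mem_subspace_eq_self
      (Submodule.mem_orthogonal_singleton_iff_inner_right.2 h2),
    show -w = (-1 : ℝ) • w by simp, BB_smul] at h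
  linarith

/-- the moments of two unit vectors agree -/
theorem BB_eq (u e' : E) (ψ : ℝ → ℝ) (w w' : E) (h1 : ⟪w, u⟫ = 0) (h2 : ⟪w, e'⟫ = 0)
    (h1' : ⟪w', u⟫ = 0) (h2' : ⟪w', e'⟫ = 0) (h : ‖w‖ = ‖w'‖) :
    BB u e' ψ w w = BB u e' ψ w' w' := by
  have hm : ∀ x : E, ⟪w, x⟫ = 0 → ⟪w', x⟫ = 0 → x ∈ (ℝ ∙ (w - w'))ᗮ := fun x a b =>
    Submodule.mem_orthogonal_singleton_iff_inner_right.2 (by rw [inner_sub_left, a, b, sub_zero])
  have e := BB_inv u e' ψ ((ℝ ∙ (w - w'))ᗮ.reflection)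
    (Submodule.reflection_mem_subspace_eq_self (hm u h1 h1'))
    (Submodule.reflection_mem_subspace_eq_self (hm e' h2 h2'))
    (fun x => Submodule.reflection_reflection _ x) w w
  rw [Submodule.reflection_sub h] at e
  exact e.symm

end

/-- **row ZSM** -/
theorem zsm : ZsmStmt := by
  intro E _ _ _ _ _ u e' hn hu he hue ψ hψ w
  obtain ⟨m, hm⟩ : ∃ m, finrank ℝ E = m + 2 := ⟨finrank ℝ E - 2, by omega⟩
  have hm1 : 1 ≤ m := by omega
  obtain ⟨b, hb0, hb1⟩ := exists_onb m hm u e' hu he hue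
  have huu : ⟪u, u⟫ = 1 := by rw [real_inner_self_eq_norm_sq, hu, one_pow]
  have hee : ⟪e', e'⟫ = 1 := by rw [real_inner_self_eq_norm_sq, he, one_pow]
  have heu : ⟪e', u⟫ = 0 := by rw [real_inner_comm, hue]
  obtain ⟨q0, hq0⟩ : ∃ q0, q0 = BB u e' ψ (b (Fin.last (m + 1))) (b (Fin.last (m + 1))) :=
    ⟨_, rfl⟩
  have hbu : ∀ i : Fin (m + 2), i ≠ 0 → ⟪b i, u⟫ = 0 := by
    intro i hi
    rw [← hb0]
    exact b.orthonormal.2 hi
  have hbe : ∀ i : Fin (m + 2), i ≠ 1 → ⟪b i, e'⟫ = 0 := by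
    intro i hi
    rw [← hb1]
    exact b.orthonormal.2 hi
  have hl0 : Fin.last (m + 1) ≠ 0 := by
    intro h
    have := congrArg Fin.val h
    simp at this
  have hl1 : Fin.last (m + 1) ≠ 1 := by
    intro h
    have := congrArg Fin.val h
    simp at this
    omega
  have hunit : ∀ x : E, ⟪x, u⟫ = 0 → ⟪x, e'⟫ = 0 → ‖x‖ = 1 → BB u e' ψ x x = q0 := by
    intro x h1 h2 h3
    rw [hq0]
    exact BB_eq u e' ψ _ _ h1 h2 (hbu _ hl0) (hbe _ hl1) (by rw [h3, b.orthonormal.1])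
  have hgen : ∀ x : E, ⟪x, u⟫ = 0 → ⟪x, e'⟫ = 0 → BB u e' ψ x x = ‖x‖ ^ 2 * q0 := by
    intro x h1 h2
    by_cases hx : x = 0
    · rw [hx, show (0 : E) = (0 : ℝ) • (0 : E) by simp, BB_smul]
      simp
    · have hx' : ‖x‖ ≠ 0 := norm_ne_zero_iff.2 hx
      have e1 : x = ‖x‖ • nrm x := by
        unfold nrm
        rw [smul_smul, mul_inv_cancel₀ hx', one_smul]
      have e2 : BB u e' ψ x x = ‖x‖ ^ 2 * BB u e' ψ (nrm x) (nrm x) := by
        calc BB u e' ψ x x = BB u e' ψ (‖x‖ • nrm x) (‖x‖ • nrm x) := by rw [← e1]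
          _ = ‖x‖ * BB u e' ψ (nrm x) (‖x‖ • nrm x) := BB_smul u e' ψ _ _ _
          _ = ‖x‖ * (‖x‖ * BB u e' ψ (nrm x) (nrm x)) := by
            rw [BB_comm u e' ψ (nrm x), BB_smul]
          _ = _ := by ring
      rw [e2, hunit (nrm x) ?_ ?_ (BPH.norm_nrm hx)]
      · unfold nrm
        rw [real_inner_smul_left, h1, mul_zero]
      · unfold nrm
        rw [real_inner_smul_left, h2, mul_zero]
  -- the trace
  have htr : (m : ℝ) * q0 = mS (ℝ ∙ u)ᗮ (fun x => (1 - ⟪e', x⟫ ^ 2) * ψ ⟪e', x⟫) := by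
    have h1 : mS (ℝ ∙ u)ᗮ (fun x => (1 - ⟪e', x⟫ ^ 2) * ψ ⟪e', x⟫) =
        mS (ℝ ∙ u)ᗮ (fun x => ∑ k : Fin m, ⟪b k.succ.succ, x⟫ * ⟪b k.succ.succ, x⟫ *
          ψ ⟪e', x⟫) := by
      refine mS_congr he hue fun x hx hux => ?_
      have h2 := b.sum_sq_inner_right x
      rw [Fin.sum_univ_succ, Fin.sum_univ_succ, hx, hb0, hux, Fin.succ_zero_eq_one, hb1] at h2
      rw [← Finset.sum_mul]
      congr 1
      rw [Finset.sum_congr rfl fun k _ => (sq (⟪b (Fin.succ (Fin.succ k)), x⟫ : ℝ)).symm]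
      linarith
    rw [h1, mS_sum _ _ _ (fun k _ => gd2 e' _ _ hψ)]
    have h3 : ∀ k : Fin m, mS (ℝ ∙ u)ᗮ (fun x => ⟪b k.succ.succ, x⟫ * ⟪b k.succ.succ, x⟫ *
        ψ ⟪e', x⟫) = q0 := by
      intro k
      refine hunit _ (hbu _ (Fin.succ_ne_zero _)) (hbe _ ?_) (b.orthonormal.1 _)
      intro h
      have := congrArg Fin.val h
      simp at this
    rw [Finset.sum_congr rfl fun k _ => h3 k, Finset.sum_const, Finset.card_univ,
      Fintype.card_fin, nsmul_eq_mul]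
  have hm0 : (m : ℝ) ≠ 0 := by exact_mod_cast (by omega : m ≠ 0)
  have hb' : mS (ℝ ∙ u)ᗮ (fun x => (1 - ⟪e', x⟫ ^ 2) * ψ ⟪e', x⟫) / ((finrank ℝ E : ℝ) - 2) =
      q0 := by
    rw [← htr, hm]
    push_cast
    rw [add_sub_cancel_right, mul_div_cancel_left₀ _ hm0]
  rw [hb']
  -- decomposition of `w`
  obtain ⟨w', hw'⟩ : ∃ w', w' = w - ⟪w, e'⟫ • e' - ⟪w, u⟫ • u := ⟨_, rfl⟩
  have hwu : ⟪w', u⟫ = 0 := by
    rw [hw', inner_sub_left, inner_sub_left, real_inner_smul_left, real_inner_smul_left, heu,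
      huu]
    ring
  have hwe : ⟪w', e'⟫ = 0 := by
    rw [hw', inner_sub_left, inner_sub_left, real_inner_smul_left, real_inner_smul_left, hee,
      hue]
    ring
  have hw : w = ⟪w, u⟫ • u + (⟪w, e'⟫ • e' + w') := by
    rw [hw']
    abel
  have hnorm : ‖w'‖ ^ 2 = ‖w‖ ^ 2 - ⟪w, e'⟫ ^ 2 - ⟪w, u⟫ ^ 2 := by
    have h1 : ⟪w', w'⟫ = ⟪w', w⟫ := by
      conv_lhs => rw [hw', inner_sub_right, inner_sub_right, real_inner_smul_right,
        real_inner_smul_right, ← hw', hwe, hwu]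
      ring
    rw [← real_inner_self_eq_norm_sq, h1, hw', inner_sub_left, inner_sub_left,
      real_inner_smul_left, real_inner_smul_left, real_inner_self_eq_norm_sq,
      real_inner_comm w e', real_inner_comm w u]
    ring
  have hL : mS (ℝ ∙ u)ᗮ (fun x => ⟪w, x⟫ ^ 2 * ψ ⟪e', x⟫) = BB u e' ψ w w := by
    unfold BB
    congr 1
    funext x
    ring
  have hA : mS (ℝ ∙ u)ᗮ (fun x => ⟪e', x⟫ ^ 2 * ψ ⟪e', x⟫) = BB u e' ψ e' e' := by
    unfold BB
    congr 1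
    funext x
    ring
  rw [hL, hA]
  have hmain : BB u e' ψ w w = ⟪w, e'⟫ ^ 2 * BB u e' ψ e' e' + ‖w'‖ ^ 2 * q0 := by
    have h1 : ∀ q, BB u e' ψ w q = ⟪w, e'⟫ * BB u e' ψ e' q + BB u e' ψ w' q := by
      intro q
      calc BB u e' ψ w q = BB u e' ψ (⟪w, u⟫ • u + (⟪w, e'⟫ • e' + w')) q := by rw [← hw]
        _ = _ := by
          rw [BB_add u e' hψ, BB_add u e' hψ, BB_smul, BB_smul, BB_u he hue, mul_zero, zero_add]
    rw [h1 w, BB_comm u e' ψ e' w, BB_comm u e' ψ w' w, h1 e', h1 w', BB_comm u e' ψ e' w',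
      BB_mix u e' ψ w' hwu hwe, hgen w' hwu hwe]
    ring
  rw [hmain, hnorm]
  ring

end Pool.Agent.REV.H66
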