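import Pool.Agent.REV.StmtsV3

set_option autoImplicit false

/-!
# Squad REV (MP_bbfd73_gt), row VF3: the limit equation and the tail estimate in dimension three
(the first part is adapted from Helper16_REV/VEL.lean)
-/

namespace Pool.Agent.REV.H66

open Set MeasureTheory Filter
open scoped Topology

theorem fatou_bound {s : Set ℝ} (hs : MeasurableSet s) {g : ℕ → ℝ → ℝ} {G : ℝ → ℝ} {u : ℕ → ℝ}
    {L : ℝ} (hgi : ∀ k, IntegrableOn (g k) s) (h0 : ∀ k, ∀ t ∈ s, 0 ≤ g k t)
    (hae : ∀ᵐ t ∂(volume.restrict s), Tendsto (fun k => g k t) atTop (𝓝 (G t)))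
    (hu : ∀ k, ∫ t in s, g k t ≤ u k) (hL : Tendsto u atTop (𝓝 L)) :
    ∫⁻ t in s, ENNReal.ofReal (G t) ≤ ENNReal.ofReal L := by
  have h1 : ∫⁻ t in s, ENNReal.ofReal (G t) =
      ∫⁻ t in s, liminf (fun k => ENNReal.ofReal (g k t)) atTop := by
    apply lintegral_congr_ae
    filter_upwards [hae] with t ht
    exact ((ENNReal.continuous_ofReal.tendsto _).comp ht).liminf_eq.symm
  have h2 : ∫⁻ t in s, liminf (fun k => ENNReal.ofReal (g k t)) atTop ≤
      liminf (fun k => ∫⁻ t in s, ENNReal.ofReal (g k t)) atTop :=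
    lintegral_liminf_le' fun k => ((hgi k).aestronglyMeasurable.aemeasurable).ennreal_ofReal
  have h3 : ∀ k, ∫⁻ t in s, ENNReal.ofReal (g k t) ≤ ENNReal.ofReal (u k) := by
    intro k
    rw [← ofReal_integral_eq_lintegral_ofReal (hgi k)
      ((ae_restrict_mem hs).mono fun t ht => h0 k t ht)]
    exact ENNReal.ofReal_le_ofReal (hu k)
  have h4 : liminf (fun k => ENNReal.ofReal (u k)) atTop = ENNReal.ofReal L :=
    ((ENNReal.continuous_ofReal.tendsto _).comp hL).liminf_eq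
  rw [h1]
  refine h2.trans ?_
  rw [← h4]
  exact liminf_le_liminf (Eventually.of_forall h3)

theorem vf3 (hVM : Vm3Stmt) (hVP : Vp3Stmt) (hVE : Ve3Stmt) (hVT : Vt3Stmt) : Vf3Stmt := by
  intro C σ R K F s y D hC hσ hR hLD hK hyK
  have hc3 : 0 < c3 3 C := by
    unfold c3
    apply div_pos hC
    norm_num
  have hσc : 0 < σ * c3 3 C := mul_pos hσ hc3
  -- `y ≤ R`
  have hyR : ∀ t, 0 < t → y t ≤ R := by
    intro t ht
    refine ge_of_tendsto hLD.top ?_
    filter_upwards [eventually_ge_atTop t] with u hu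
    exact hLD.mono ht (lt_of_lt_of_le ht hu) hu
  have hRk : Tendsto (fun k => RA 3 (F k 0) 1) atTop (𝓝 R) := hLD.rlim 0 (by norm_num)
  have hsk : Tendsto (fun k => s k 0) atTop (𝓝 σ) := hLD.slim 0 (by norm_num)
  have hyb : ∀ k t, 0 ≤ t → 0 ≤ yb 3 (F k 0) t ∧ yb 3 (F k 0) t ≤ RA 3 (F k 0) 1 := fun k t ht =>
    (hVM (F k 0) (hLD.prf k 0)).2.2.2.1 t ht
  have hRA0 : ∀ k, 0 ≤ RA 3 (F k 0) 1 := fun k => (hVM (F k 0) (hLD.prf k 0)).2.2.1
  have hph : ∀ k t, 0 ≤ t → 0 ≤ ph 3 (F k 0) t ∧ ph 3 (F k 0) t ≤ RA 3 (F k 0) 1 ^ 2 := by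
    intro k t ht
    obtain ⟨h1, h2⟩ := hyb k t ht
    exact ⟨pow_nonneg h1 _, pow_le_pow_left₀ h1 h2 _⟩
  have hskc : ∀ k, 0 < s k 0 * c3 3 C := fun k => mul_pos (hLD.spos k 0) hc3
  have hskt : Tendsto (fun k => s k 0 * c3 3 C) atTop (𝓝 (σ * c3 3 C)) := hsk.mul_const _
  set q : ℝ := (4 / 3 : ℝ) ^ (1 / 2 : ℝ) with hq
  have hq0 : 0 < q := by positivity
  -- the differences `R^2 - y^2`
  have hd0 : ∀ t, 0 < t → 0 ≤ R ^ 2 - y t ^ 2 := fun t ht =>
    sub_nonneg.2 (pow_le_pow_left₀ (hLD.nonneg t ht) (hyR t ht) _)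
  have hdlim : ∀ t, 0 < t → t ∉ D →
      Tendsto (fun k => RA 3 (F k 0) 1 ^ 2 - ph 3 (F k 0) t) atTop (𝓝 (R ^ 2 - y t ^ 2)) := by
    intro t ht htD
    have h1 : Tendsto (fun k => ph 3 (F k 0) t) atTop (𝓝 (y t ^ 2)) :=
      (hLD.ylim 0 (by norm_num) t ht htD).pow 2
    exact (hRk.pow 2).sub h1
  have hT := fun (k : ℕ) (B : ℝ) (hB : 0 < B) => hVT C (s k 0) (F k 0) (F k 1) hC (hLD.spos k 0)
    (hLD.prf k 0) (hLD.prf k 1) (hLD.st k 0 (by norm_num)) B hB
  have hT4 : ∀ (k : ℕ) (B : ℝ), 0 < B → ∫ t in Ioi B, (RA 3 (F k 0) 1 ^ 2 - ph 3 (F k 0) t) ≤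
      q * yb 3 (F k 1) (2 / B) / (s k 0 * c3 3 C) := by
    intro k B hB
    rw [le_div_iff₀ (hskc k), mul_comm]
    exact (hT k B hB).2.2.2
  have hT5 : ∀ B : ℝ, 0 < B → 2 / B ∉ D →
      Tendsto (fun k => q * yb 3 (F k 1) (2 / B) / (s k 0 * c3 3 C)) atTop
        (𝓝 (q * y (2 / B) / (σ * c3 3 C))) := by
    intro B hB hBD
    refine Tendsto.div (Tendsto.const_mul _ ?_) hskt hσc.ne'
    exact hLD.ylim 1 (by norm_num) (2 / B) (by positivity) hBD
  have hcnt : (((fun x : ℝ => 2 / x) '' D)).Countable := hLD.cnt.image _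
  have hgood : ∀ x x' : ℝ, 0 < x → x < x' → ∃ B, x < B ∧ B < x' ∧ 2 / B ∉ D := by
    intro x x' hx hxx
    obtain ⟨B, hBD, hB1, hB2⟩ := (hcnt.dense_compl ℝ).exists_between hxx
    refine ⟨B, hB1, hB2, fun h => hBD ⟨2 / B, h, ?_⟩⟩
    show 2 / (2 / B) = B
    have : B ≠ 0 := (hx.trans hB1).ne'
    field_simp
  constructor
  · intro b hb hbD
    set a : ℝ := 1 / b with hadef
    have ha : 0 < a := one_div_pos.2 hb
    set g : ℕ → ℝ → ℝ := fun k t => psd 3 b t * (RA 3 (F k 0) 1 ^ 2 - ph 3 (F k 0) t) with hg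
    set G : ℝ → ℝ := fun t => psd 3 b t * (R ^ 2 - y t ^ 2) with hG
    have hV := fun k => hVE C (s k 0) (F k 0) (F k 1) hC (hLD.spos k 0) (hLD.prf k 0)
      (hLD.prf k 1) (hLD.st k 0 (by norm_num)) b hb
    have hgi : ∀ k, IntegrableOn (g k) (Ioi a) := fun k => (hV k).1
    have hI : ∀ k, yb 3 (F k 1) b = s k 0 * c3 3 C * ∫ t in Ioi a, g k t := fun k => (hV k).2
    have hpsd : ∀ t, a < t → 0 ≤ psd 3 b t := fun t ht => ((hVP b hb).1 t ht).2
    have hpsd2 : ∀ t, 2 / b ≤ t → psd 3 b t ≤ 2 := (hVP b hb).2.1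
    have hg0 : ∀ k t, a < t → 0 ≤ g k t := by
      intro k t ht
      exact mul_nonneg (hpsd t ht) (sub_nonneg.2 (hph k t (ha.le.trans ht.le)).2)
    have hG0 : ∀ t, a < t → 0 ≤ G t := fun t ht =>
      mul_nonneg (hpsd t ht) (hd0 t (ha.trans ht))
    set L : ℝ := y b / (σ * c3 3 C) with hLdef
    have hL : Tendsto (fun k => ∫ t in Ioi a, g k t) atTop (𝓝 L) := by
      have h1 : Tendsto (fun k => yb 3 (F k 1) b / (s k 0 * c3 3 C)) atTop (𝓝 L) :=
        (hLD.ylim 1 (by norm_num) b hb hbD).div hskt hσc.ne'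
      refine h1.congr fun k => ?_
      rw [hI k, mul_div_assoc, mul_comm, div_mul_cancel₀ _ (hskc k).ne']
    have hL0 : 0 ≤ L := div_nonneg (hLD.nonneg b hb) hσc.le
    have hae : ∀ᵐ t ∂(volume.restrict (Ioi a)), Tendsto (fun k => g k t) atTop (𝓝 (G t)) := by
      filter_upwards [ae_restrict_mem measurableSet_Ioi,
        ae_restrict_of_ae (hLD.cnt.ae_notMem volume)] with t ht htD
      exact (hdlim t (ha.trans ht) htD).const_mul (psd 3 b t)
    have haeG : ∀ᵐ t ∂(volume.restrict (Ioi a)), 0 ≤ G t := by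
      filter_upwards [ae_restrict_mem measurableSet_Ioi] with t ht
      exact hG0 t ht
    have hGm : AEStronglyMeasurable G (volume.restrict (Ioi a)) :=
      aestronglyMeasurable_of_tendsto_ae atTop (fun k => (hgi k).aestronglyMeasurable) hae
    have hF : ∫⁻ t in Ioi a, ENNReal.ofReal (G t) ≤ ENNReal.ofReal L :=
      fatou_bound measurableSet_Ioi hgi (fun k t ht => hg0 k t ht) hae (fun k => le_rfl) hL
    have hGi : IntegrableOn G (Ioi a) :=
      ⟨hGm, (hasFiniteIntegral_iff_ofReal haeG).2 (hF.trans_lt ENNReal.ofReal_lt_top)⟩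
    have hle1 : ∫ t in Ioi a, G t ≤ L := by
      rw [integral_eq_lintegral_of_nonneg_ae haeG hGm]
      have := ENNReal.toReal_mono ENNReal.ofReal_ne_top hF
      rwa [ENNReal.toReal_ofReal hL0] at this
    have h2a : a < 2 / b := by
      rw [hadef]
      exact div_lt_div_of_pos_right (by norm_num) hb
    -- tails
    have htail : ∀ B : ℝ, 2 / b < B → 2 / B ∉ D →
        L ≤ (∫ t in Ioi a, G t) + 2 * (q * y (2 / B) / (σ * c3 3 C)) := by
      intro B hB2 hBD
      have hB : a < B := h2a.trans hB2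
      have hB0 : 0 < B := ha.trans hB
      have hsub1 : Ioc a B ⊆ Ioi a := Ioc_subset_Ioi_self
      have hsub2 : Ioi B ⊆ Ioi a := Ioi_subset_Ioi hB.le
      have h1 : ∀ k, ∫ t in Ioi a, g k t ≤
          (∫ t in Ioc a B, g k t) + 2 * (q * yb 3 (F k 1) (2 / B) / (s k 0 * c3 3 C)) := by
        intro k
        have e1 : ∫ t in Ioi a, g k t = (∫ t in Ioc a B, g k t) + ∫ t in Ioi B, g k t := by
          rw [← Ioc_union_Ioi_eq_Ioi hB.le]
          exact setIntegral_union (Ioc_disjoint_Ioi le_rfl) measurableSet_Ioi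
            ((hgi k).mono_set hsub1) ((hgi k).mono_set hsub2)
        have e2 : ∫ t in Ioi B, g k t ≤
            ∫ t in Ioi B, 2 * (RA 3 (F k 0) 1 ^ 2 - ph 3 (F k 0) t) := by
          apply setIntegral_mono_on ((hgi k).mono_set hsub2)
            (((hT k B hB0).2.2.1).const_mul _) measurableSet_Ioi
          intro t ht
          have hta : a < t := hB.trans ht
          exact mul_le_mul_of_nonneg_right (hpsd2 t (hB2.le.trans (le_of_lt ht)))
            (sub_nonneg.2 (hph k t (ha.le.trans hta.le)).2)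
        rw [integral_const_mul] at e2
        have e4 := hT4 k B hB0
        linarith
      have hpi : IntegrableOn (psd 3 b) (Ioc a B) :=
        (intervalIntegrable_iff_integrableOn_Ioc_of_le hB.le).1 ((hVP b hb).2.2 B hB.le).1
      have h2 : Tendsto (fun k => ∫ t in Ioc a B, g k t) atTop (𝓝 (∫ t in Ioc a B, G t)) := by
        apply tendsto_integral_filter_of_dominated_convergence
          (fun t => psd 3 b t * (R + 1) ^ 2)
        · exact Eventually.of_forall fun k => ((hgi k).mono_set hsub1).aestronglyMeasurable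
        · filter_upwards [hRk.eventually (gt_mem_nhds (show R < R + 1 by linarith))] with k hk
          filter_upwards [ae_restrict_mem measurableSet_Ioc] with t ht
          rw [Real.norm_eq_abs, abs_of_nonneg (hg0 k t ht.1)]
          have hp := hph k t (ha.le.trans ht.1.le)
          have h3 : RA 3 (F k 0) 1 ^ 2 ≤ (R + 1) ^ 2 :=
            pow_le_pow_left₀ (hRA0 k) hk.le _
          exact mul_le_mul_of_nonneg_left (by linarith) (hpsd t ht.1)
        · exact hpi.mul_const _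
        · exact ae_restrict_of_ae_restrict_of_subset hsub1 hae
      have h3 : Tendsto (fun k => (∫ t in Ioc a B, g k t) +
          2 * (q * yb 3 (F k 1) (2 / B) / (s k 0 * c3 3 C))) atTop
          (𝓝 ((∫ t in Ioc a B, G t) + 2 * (q * y (2 / B) / (σ * c3 3 C)))) :=
        h2.add (Tendsto.const_mul _ (hT5 B hB0 hBD))
      have h4 := le_of_tendsto_of_tendsto' hL h3 h1
      have h5 : ∫ t in Ioc a B, G t ≤ ∫ t in Ioi a, G t :=
        setIntegral_mono_set hGi haeG (LE.le.eventuallyLE hsub1)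
      linarith
    have hle2 : L ≤ ∫ t in Ioi a, G t := by
      apply le_of_forall_pos_le_add
      intro ε hε
      set B0 : ℝ := max (2 / b) (2 * (q * (K * 2) / (σ * c3 3 C)) / ε) with hB0
      have hB0p : 0 < B0 := lt_of_lt_of_le (by positivity) (le_max_left _ _)
      obtain ⟨B, hB1, -, hBD'⟩ := hgood B0 (B0 + 1) hB0p (by linarith)
      have hBa : 2 / b < B := (le_max_left _ _).trans_lt hB1
      have hBp : 0 < B := hB0p.trans hB1
      have h1 := htail B hBa hBD'
      have h2 : y (2 / B) ≤ K * (2 / B) := hyK _ (by positivity)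
      have h3 : 2 * (q * (K * 2) / (σ * c3 3 C)) / ε < B := (le_max_right _ _).trans_lt hB1
      rw [div_lt_iff₀ hε] at h3
      have h4 : 2 * (q * y (2 / B) / (σ * c3 3 C)) ≤
          2 * (q * (K * 2) / (σ * c3 3 C)) / B := by
        have e1 : q * y (2 / B) ≤ q * (K * (2 / B)) := mul_le_mul_of_nonneg_left h2 hq0.le
        have e2 : q * y (2 / B) / (σ * c3 3 C) ≤ q * (K * (2 / B)) / (σ * c3 3 C) :=
          div_le_div_of_nonneg_right e1 hσc.le
        have e3 := mul_le_mul_of_nonneg_left e2 (zero_le_two (α := ℝ))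
        refine e3.trans (le_of_eq ?_)
        field_simp
      have h5 : 2 * (q * (K * 2) / (σ * c3 3 C)) / B ≤ ε := by
        rw [div_le_iff₀ hBp]
        linarith
      linarith
    refine ⟨hGi, ?_⟩
    have : L = ∫ t in Ioi a, G t := le_antisymm hle2 hle1
    rw [← this, hLdef, mul_div_assoc', mul_comm, mul_div_assoc, div_self hσc.ne', mul_one]
  · -- the tail estimate
    have hF : ∀ B : ℝ, 0 < B → 2 / B ∉ D →
        ∫⁻ t in Ioi B, ENNReal.ofReal (R ^ 2 - y t ^ 2) ≤
          ENNReal.ofReal (q * y (2 / B) / (σ * c3 3 C)) := by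
      intro B hB hBD
      refine fatou_bound measurableSet_Ioi
        (g := fun k t => RA 3 (F k 0) 1 ^ 2 - ph 3 (F k 0) t)
        (u := fun k => q * yb 3 (F k 1) (2 / B) / (s k 0 * c3 3 C)) ?_ ?_ ?_ ?_ (hT5 B hB hBD)
      · exact fun k => (hT k B hB).2.2.1
      · intro k t ht
        exact sub_nonneg.2 (hph k t (hB.le.trans (le_of_lt ht))).2
      · filter_upwards [ae_restrict_mem measurableSet_Ioi,
          ae_restrict_of_ae (hLD.cnt.ae_notMem volume)] with t ht htD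
        exact hdlim t (hB.trans ht) htD
      · exact fun k => hT4 k B hB
    have hanti : ∀ t t' : ℝ, 0 < t → t ≤ t' → R ^ 2 - y t' ^ 2 ≤ R ^ 2 - y t ^ 2 := by
      intro t t' ht htt
      have h1 : y t ≤ y t' := hLD.mono ht (lt_of_lt_of_le ht htt) htt
      have h2 := pow_le_pow_left₀ (hLD.nonneg t ht) h1 2
      linarith
    set c : ℝ := 2 * q * K / (σ * c3 3 C) with hc
    have hc0 : 0 ≤ c := by positivity
    have hmain : ∀ B : ℝ, 0 < B → 2 / B ∉ D → (R ^ 2 - y (2 * B) ^ 2) * B ≤ c / B := by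
      intro B hB hBD
      have h1 : ∫⁻ t in Ioc B (2 * B), ENNReal.ofReal (R ^ 2 - y (2 * B) ^ 2) ≤
          ENNReal.ofReal (q * y (2 / B) / (σ * c3 3 C)) := by
        refine le_trans ?_ (hF B hB hBD)
        refine le_trans ?_ (lintegral_mono_set (s := Ioc B (2 * B)) Ioc_subset_Ioi_self)
        refine setLIntegral_mono' measurableSet_Ioc fun t ht => ?_
        exact ENNReal.ofReal_le_ofReal (hanti t (2 * B) (hB.trans ht.1) ht.2)
      rw [setLIntegral_const, Real.volume_Ioc, show 2 * B - B = B by ring,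
        ← ENNReal.ofReal_mul (hd0 (2 * B) (by positivity))] at h1
      have h2 : 0 ≤ q * y (2 / B) / (σ * c3 3 C) :=
        div_nonneg (mul_nonneg hq0.le (hLD.nonneg _ (by positivity))) hσc.le
      have h3 := (ENNReal.ofReal_le_ofReal_iff h2).1 h1
      refine h3.trans ?_
      have h4 : y (2 / B) ≤ K * (2 / B) := hyK _ (by positivity)
      have e1 : q * y (2 / B) ≤ q * (K * (2 / B)) := mul_le_mul_of_nonneg_left h4 hq0.le
      refine (div_le_div_of_nonneg_right e1 hσc.le).trans (le_of_eq ?_)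
      rw [hc]
      field_simp
    refine ⟨max (R ^ 2) (16 * c), le_trans (sq_nonneg R) (le_max_left _ _), ?_⟩
    intro t ht
    obtain ⟨B, hB1, hB2, hBD⟩ := hgood (t / 4) (t / 2) (by linarith) (by linarith)
    have hB0 : 0 < B := by linarith
    have h1 := hmain B hB0 hBD
    have h2 : R ^ 2 - y t ^ 2 ≤ R ^ 2 - y (2 * B) ^ 2 :=
      hanti (2 * B) t (by linarith) (by linarith)
    have h3 : R ^ 2 - y (2 * B) ^ 2 ≤ c / B / B := by
      rw [le_div_iff₀ hB0]
      exact h1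
    have h4 : c / B / B ≤ 16 * c * (t ^ 2)⁻¹ := by
      rw [div_div, div_le_iff₀ (by positivity)]
      have h5 : t ^ 2 ≤ 16 * (B * B) := by nlinarith
      have h6 : (1 : ℝ) ≤ 16 * (t ^ 2)⁻¹ * (B * B) := by
        rw [← div_eq_mul_inv, div_mul_eq_mul_div, le_div_iff₀ (by positivity), one_mul]
        exact h5
      calc c = c * 1 := (mul_one c).symm
        _ ≤ c * (16 * (t ^ 2)⁻¹ * (B * B)) := mul_le_mul_of_nonneg_left h6 hc0
        _ = _ := by ring
    have h7 : R ^ 2 - y t ^ 2 ≤ R ^ 2 := by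
      have := sq_nonneg (y t)
      linarith
    rcases min_choice (1 : ℝ) ((t ^ 2)⁻¹) with h | h
    · rw [h, mul_one]
      exact h7.trans (le_max_left _ _)
    · rw [h]
      calc R ^ 2 - y t ^ 2 ≤ 16 * c * (t ^ 2)⁻¹ := by linarith
        _ ≤ max (R ^ 2) (16 * c) * (t ^ 2)⁻¹ :=
          mul_le_mul_of_nonneg_right (le_max_right _ _) (by positivity)

end Pool.Agent.REV.H66
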